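import Pool.Agent.Helper6.CX.Goals

/-! Project CX, packet CHAIN: translates overlapping by half. -/

set_option linter.unusedSectionVars false

namespace Pool.Agent.Helper61.CX.CHAIN

open Equiv
open Pool.Agent.Helper15.Pair (IsLen)
open Pool.Agent.Helper6.CX (AB)

theorem AB.nonneg {n : ℕ} {L : Perm (Fin n) → ℝ} (hL : IsLen L) {d : ℝ} {S : Finset (Fin n)}
    (h : AB L d S) : 0 ≤ d := by
  have := h 1 Perm.sign_one (by simp)
  rwa [hL.one] at this

theorem AB.mono {n : ℕ} {L : Perm (Fin n) → ℝ} {d e : ℝ} {S T : Finset (Fin n)}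
    (h : AB L d S) (hde : d ≤ e) (hTS : T ⊆ S) : AB L e T :=
  fun g hg hs => (h g hg (hs.trans hTS)).trans hde

theorem un2 {n : ℕ} {L : Perm (Fin n) → ℝ} (hL : IsLen L) {d₁ d₂ : ℝ} {X Y : Finset (Fin n)}
    (h1 : AB L d₁ X) (h2 : AB L d₂ Y) (hc : (Y \ X).card ≤ (X ∩ Y).card)
    (h4 : 4 ≤ (X ∩ Y).card) : AB L (4 * d₁ + 3 * d₂) (X ∪ Y) := by
  obtain ⟨T, hTs, hTc⟩ := Finset.exists_subset_card_eq
    (s := Y \ X) (n := min (Y \ X).card ((X ∩ Y).card - 2)) (min_le_left _ _)
  set Y' : Finset (Fin n) := (X ∩ Y) ∪ T with hY'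
  have hY'Y : Y' ⊆ Y := by
    rw [hY']
    exact Finset.union_subset Finset.inter_subset_right (hTs.trans Finset.sdiff_subset)
  have a1 : (Y' \ X).card + 2 ≤ (X ∩ Y').card := by
    have b1 : (Y' \ X).card ≤ T.card := by
      refine Finset.card_le_card fun x hx => ?_
      rw [Finset.mem_sdiff, hY', Finset.mem_union, Finset.mem_inter] at hx
      rcases hx.1 with h | h
      · exact absurd h.1 hx.2
      · exact h
    have b2 : (X ∩ Y).card ≤ (X ∩ Y').card := by
      refine Finset.card_le_card fun x hx => ?_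
      rw [Finset.mem_inter, hY', Finset.mem_union]
      exact ⟨(Finset.mem_inter.1 hx).1, Or.inl hx⟩
    omega
  have a2 : AB L (2 * d₁ + d₂) (X ∪ Y') := fun g hg hs =>
    Pool.Agent.H29.Pair.union_step L hL.mul X Y' d₁ d₂ a1 h1 (AB.mono h2 le_rfl hY'Y) g hg hs
  have a3 : (Y \ (X ∪ Y')).card + 2 ≤ ((X ∪ Y') ∩ Y).card := by
    have b1 : (Y \ (X ∪ Y')).card ≤ ((Y \ X) \ T).card := by
      refine Finset.card_le_card fun x hx => ?_
      rw [Finset.mem_sdiff, Finset.mem_union, hY', Finset.mem_union] at hx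
      rw [Finset.mem_sdiff, Finset.mem_sdiff]
      exact ⟨⟨hx.1, fun h => hx.2 (Or.inl h)⟩, fun h => hx.2 (Or.inr (Or.inr h))⟩
    have b2 : ((Y \ X) \ T).card = (Y \ X).card - T.card := Finset.card_sdiff_of_subset hTs
    have b3 : (X ∩ Y).card ≤ ((X ∪ Y') ∩ Y).card := by
      refine Finset.card_le_card fun x hx => ?_
      rw [Finset.mem_inter] at hx ⊢
      exact ⟨Finset.mem_union_left _ hx.1, hx.2⟩
    omega
  intro g hg hs
  have a4 := Pool.Agent.H29.Pair.union_step L hL.mul (X ∪ Y') Y (2 * d₁ + d₂) d₂ a3 a2 h2 g hg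
    (by
      intro x hx
      have := hs hx
      rw [Finset.mem_union] at this
      rw [Finset.mem_union, Finset.mem_union]
      rcases this with h | h
      · exact Or.inl (Or.inl h)
      · exact Or.inr h)
  linarith

theorem tr {n : ℕ} {L : Perm (Fin n) → ℝ} (hL : IsLen L) {d : ℝ} {S : Finset (Fin n)}
    (h : Perm (Fin n)) (hS : AB L d S) : AB L (d + 2 * L h) (S.image h) := by
  intro g hg hs
  have h1 := hL.of_conj h⁻¹ g
  have h2 := hS (h⁻¹ * g * h⁻¹⁻¹) (by
    rw [Perm.sign_mul, Perm.sign_mul, Perm.sign_inv h⁻¹, hg]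
    rw [mul_one, Int.units_mul_self]) (by
    intro x hx
    rw [Perm.mem_support] at hx
    have h3 : g (h x) ≠ h x := by
      intro h4
      apply hx
      rw [inv_inv, Perm.mul_apply, Perm.mul_apply, h4]
      simp
    have h4 := hs (Perm.mem_support.2 h3)
    obtain ⟨y, hy, hxy⟩ := Finset.mem_image.1 h4
    rwa [← h.injective hxy])
  rw [hL.inv] at h1
  linarith

theorem thm : Pool.Agent.Helper6.CX.S_CHAIN := by
  intro n K L d h S hL hS h4 hc
  have hd := AB.nonneg hL hS
  have hh := hL.nonneg h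
  have hD : 0 ≤ d + 2 * K * L h := by positivity
  have hY : ∀ l ≤ K, AB L (d + 2 * K * L h) (S.image (h ^ l)) := by
    intro l hl
    refine AB.mono (tr hL (h ^ l) hS) ?_ (Finset.Subset.refl _)
    have h1 := hL.pow h l
    have h2 : (l : ℝ) * L h ≤ K * L h := by
      have : (l : ℝ) ≤ K := by exact_mod_cast hl
      gcongr
    linarith
  have key : ∀ l ≤ K, AB L (8 ^ l * (d + 2 * K * L h))
      ((Finset.range (l + 1)).biUnion fun l => S.image (h ^ l)) := by
    intro l
    induction l with
    | zero =>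
      intro hl
      have h1 : ((Finset.range (0 + 1)).biUnion fun l => S.image (h ^ l)) = S.image ⇑(h ^ 0) := by
        simp
      rw [h1, pow_zero (8 : ℝ), one_mul]
      exact hY 0 hl
    | succ l ih =>
      intro hl
      have ih' := ih (by omega)
      have h1 : ((Finset.range (l + 1 + 1)).biUnion fun l => S.image (h ^ l)) =
          ((Finset.range (l + 1)).biUnion fun l => S.image (h ^ l)) ∪ S.image ⇑(h ^ (l + 1)) := by
        rw [Finset.range_add_one, Finset.biUnion_insert, Finset.union_comm]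
      rw [h1]
      set X := ((Finset.range (l + 1)).biUnion fun l => S.image (h ^ l)) with hX
      have c1 : (S ∩ S.image h).card ≤ (X ∩ S.image (h ^ (l + 1))).card := by
        rw [← Finset.card_image_of_injective (S ∩ S.image h) (h ^ l).injective]
        refine Finset.card_le_card fun x hx => ?_
        obtain ⟨y, hy, rfl⟩ := Finset.mem_image.1 hx
        rw [Finset.mem_inter] at hy
        obtain ⟨hy1, hy2⟩ := hy
        obtain ⟨z, hz, rfl⟩ := Finset.mem_image.1 hy2
        rw [Finset.mem_inter]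
        constructor
        · rw [hX, Finset.mem_biUnion]
          exact ⟨l, by simp, Finset.mem_image_of_mem _ hy1⟩
        · rw [Finset.mem_image]
          refine ⟨z, hz, ?_⟩
          rw [pow_succ, Perm.mul_apply]
      have c2 : (S.image (h ^ (l + 1))).card = S.card :=
        Finset.card_image_of_injective _ (h ^ (l + 1)).injective
      have c3 := Finset.card_sdiff_add_card_inter (S.image (h ^ (l + 1))) X
      rw [Finset.inter_comm] at c3
      refine AB.mono (un2 hL ih' (hY (l + 1) hl) (by omega) (by omega)) ?_ (Finset.Subset.refl _)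
      have c4 : (1 : ℝ) ≤ 8 ^ l := one_le_pow₀ (by norm_num)
      rw [pow_succ (8 : ℝ) l]
      nlinarith
  exact key K le_rfl

end Pool.Agent.Helper61.CX.CHAIN
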