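import Pool.Agent.Helper6.CX.Goals

/-! Project CX, packet COVK: covering by shifted blocks. -/

set_option linter.unusedSectionVars false

namespace Pool.Agent.Helper61.CX.COVK

open Equiv
open Pool.Agent.Helper15.Pair (IsLen)

theorem thm : Pool.Agent.Helper6.CX.S_COVK := by
  intro N M a J hN0 hMa hJ L hL d hsh g hg
  obtain ⟨y, hy⟩ : ∃ y : Perm (Fin N), y = Equiv.addRight (Fin.ofNat N a) := ⟨_, rfl⟩
  rw [← hy] at hsh
  have he0 : 0 ≤ d := by
    have := hsh 0 (Nat.zero_le _) 1 (Perm.sign_one) (fun t _ => rfl)
    simpa [hL.one] using this
  have hblk : ∀ g : Perm (Fin N), Perm.sign g = 1 → (∀ t : Fin N, M ≤ t.val → g t = t) →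
      L g ≤ d := by
    intro g hg hs
    have := hsh 0 (Nat.zero_le _) g hg hs
    simpa using this
  have hshift : ∀ j, j ≤ J → ∀ g : Perm (Fin N), Perm.sign g = 1 →
      g.support ⊆ (Finset.univ.filter fun i : Fin N => ((y ^ j)⁻¹ i).val < M) → L g ≤ d := by
    intro j hj g hg hs
    have h2 := hsh j hj ((y ^ j)⁻¹ * g * (y ^ j)⁻¹⁻¹) (by
      rw [Perm.sign_mul, Perm.sign_mul, Perm.sign_inv (y ^ j)⁻¹, hg]
      rw [mul_one, Int.units_mul_self]) (by
      intro t ht
      by_contra hne
      have h3 : g ((y ^ j) t) ≠ (y ^ j) t := by
        intro h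
        apply hne
        rw [inv_inv, Perm.mul_apply, Perm.mul_apply, h]
        simp
      have h4 := hs (Perm.mem_support.2 h3)
      rw [Finset.mem_filter] at h4
      have h5 := h4.2
      simp at h5
      omega)
    have h3 : y ^ j * ((y ^ j)⁻¹ * g * (y ^ j)⁻¹⁻¹) * (y ^ j)⁻¹ = g := by group
    rw [h3] at h2
    exact h2
  have hval : ∀ j (i : Fin N), j * a ≤ i.val → (((y ^ j)⁻¹ i).val) = i.val - j * a := by
    intro j i hi
    set t : Fin N := ⟨i.val - j * a, by have := i.isLt; omega⟩ with ht
    have h1 := Pool.Agent.Helper62.PairD.y_pow_val y hy j t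
    have h2 : (y ^ j) t = i := by
      ext
      rw [h1, ht]
      simp only
      rw [Nat.sub_add_cancel hi, Nat.mod_eq_of_lt i.isLt]
    rw [← h2, ← Perm.mul_apply, inv_mul_cancel, Perm.one_apply, h2]
  have key : ∀ j, j ≤ J → ∀ g : Perm (Fin N), Perm.sign g = 1 →
      g.support ⊆ (Finset.univ.filter fun i : Fin N => i.val < j * a + M) →
      L g ≤ d * (2 ^ (j + 1) - 1) := by
    intro j
    induction j with
    | zero =>
      intro _ g hg hs
      have h1 := hblk g hg (by
        intro t ht
        by_contra hne
        have h4 := hs (Perm.mem_support.2 hne)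
        rw [Finset.mem_filter] at h4
        omega)
      norm_num
      linarith
    | succ j ih =>
      intro hj g hg hs
      have ih' := ih (by omega)
      have hle : d * (2 ^ (j + 1) - 1) ≤ d * (2 ^ (j + 1 + 1) - 1) := by
        refine mul_le_mul_of_nonneg_left ?_ he0
        rw [pow_succ (2 : ℝ) (j + 1)]
        have : (0 : ℝ) < 2 ^ (j + 1) := by positivity
        linarith
      by_cases hcase : N ≤ j * a + M
      · refine (ih' g hg fun i _ => ?_).trans hle
        rw [Finset.mem_filter]
        exact ⟨Finset.mem_univ i, lt_of_lt_of_le i.isLt hcase⟩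
      · push Not at hcase
        have hja : (j + 1) * a = j * a + a := by ring
        have h1 := Pool.Agent.H29.Pair.union_step L hL.mul
          (Finset.univ.filter fun i : Fin N => i.val < j * a + M)
          (Finset.univ.filter fun i : Fin N => ((y ^ (j + 1))⁻¹ i).val < M)
          (d * (2 ^ (j + 1) - 1)) d ?_ ih' (hshift (j + 1) hj) g hg ?_
        · refine h1.trans (le_of_eq ?_)
          rw [pow_succ (2 : ℝ) (j + 1)]
          ring
        · have c1 : ((Finset.univ.filter fun i : Fin N => ((y ^ (j + 1))⁻¹ i).val < M) \
              (Finset.univ.filter fun i : Fin N => i.val < j * a + M)).card ≤ a := by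
            have : a = (Finset.Ico (j * a + M) ((j + 1) * a + M)).card := by
              rw [Nat.card_Ico, hja]; omega
            conv_rhs => rw [this]
            rw [← Finset.card_image_of_injective _ (Fin.val_injective)]
            refine Finset.card_le_card fun v hv => ?_
            obtain ⟨i, hi, rfl⟩ := Finset.mem_image.1 hv
            rw [Finset.mem_sdiff, Finset.mem_filter, Finset.mem_filter] at hi
            obtain ⟨⟨_, hi1⟩, hi2⟩ := hi
            have hi3 : j * a + M ≤ i.val := by
              by_contra hcon
              exact hi2 ⟨Finset.mem_univ i, by omega⟩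
            rw [hval (j + 1) i (by rw [hja]; omega)] at hi1
            rw [Finset.mem_Ico]
            constructor
            · exact hi3
            · omega
          have c2 : M - a ≤ ((Finset.univ.filter fun i : Fin N => i.val < j * a + M) ∩
              (Finset.univ.filter fun i : Fin N => ((y ^ (j + 1))⁻¹ i).val < M)).card := by
            have : M - a = (Finset.Ico ((j + 1) * a) (j * a + M)).card := by
              rw [Nat.card_Ico, hja]; omega
            rw [this]
            refine le_trans (Finset.card_le_card fun v hv => ?_) (Finset.card_image_le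
              (f := Fin.val))
            rw [Finset.mem_Ico] at hv
            rw [Finset.mem_image]
            refine ⟨⟨v, by omega⟩, ?_, rfl⟩
            rw [Finset.mem_inter, Finset.mem_filter, Finset.mem_filter]
            refine ⟨⟨Finset.mem_univ _, hv.2⟩, Finset.mem_univ _, ?_⟩
            rw [hval (j + 1) ⟨v, by omega⟩ hv.1]
            simp only
            omega
          omega
        · intro i hi
          have h2 := hs hi
          rw [Finset.mem_filter] at h2
          rw [Finset.mem_union, Finset.mem_filter, Finset.mem_filter]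
          by_cases h3 : i.val < j * a + M
          · exact Or.inl ⟨Finset.mem_univ i, h3⟩
          · right
            refine ⟨Finset.mem_univ i, ?_⟩
            rw [hval (j + 1) i (by rw [hja]; omega)]
            omega
  have h1 := key J le_rfl g hg (fun i _ => by
    rw [Finset.mem_filter]
    exact ⟨Finset.mem_univ i, by have := i.isLt; omega⟩)
  refine h1.trans ?_
  refine mul_le_mul_of_nonneg_left ?_ he0
  linarith

end Pool.Agent.Helper61.CX.COVK
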