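import Pool.Agent.Helper6.CX.Goals

/-! Project CX, packet INV8: every even permutation is a product of four commutators of
involutions. -/

set_option linter.unusedSectionVars false

namespace Pool.Agent.Helper61.CX.INV8

open Equiv

theorem of_four (hevc : Pool.Agent.Helper6.CX.S_EVC) {N : ℕ} (g₁ g₂ g₃ g₄ : Perm (Fin N))
    (h₁ : g₁ * g₁ = 1) (h₂ : g₂ * g₂ = 1) (h₃ : g₃ * g₃ = 1) (h₄ : g₄ * g₄ = 1)
    (s₁ : Perm.sign g₁ = 1) (s₂ : Perm.sign g₂ = 1) (s₃ : Perm.sign g₃ = 1)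
    (s₄ : Perm.sign g₄ = 1) :
    ∃ S : Fin 8 → Perm (Fin N), (∀ i, S i * S i = 1) ∧
    g₁ * g₂ * g₃ * g₄ = (S 0 * S 1 * (S 0)⁻¹ * (S 1)⁻¹) * (S 2 * S 3 * (S 2)⁻¹ * (S 3)⁻¹) *
      (S 4 * S 5 * (S 4)⁻¹ * (S 5)⁻¹) * (S 6 * S 7 * (S 6)⁻¹ * (S 7)⁻¹) := by
  obtain ⟨a₁, b₁, ha₁, hb₁, e₁⟩ := hevc N g₁ h₁ s₁
  obtain ⟨a₂, b₂, ha₂, hb₂, e₂⟩ := hevc N g₂ h₂ s₂
  obtain ⟨a₃, b₃, ha₃, hb₃, e₃⟩ := hevc N g₃ h₃ s₃
  obtain ⟨a₄, b₄, ha₄, hb₄, e₄⟩ := hevc N g₄ h₄ s₄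
  refine ⟨![a₁, b₁, a₂, b₂, a₃, b₃, a₄, b₄], ?_, ?_⟩
  · intro i
    fin_cases i
    · exact ha₁
    · exact hb₁
    · exact ha₂
    · exact hb₂
    · exact ha₃
    · exact hb₃
    · exact ha₄
    · exact hb₄
  · rw [e₁, e₂, e₃, e₄]
    rfl

theorem swap_comm_of_inv {N : ℕ} (τ : Perm (Fin N)) (hτ : τ * τ = 1) (u : Fin N) :
    τ * swap u (τ u) = swap u (τ u) * τ := by
  rw [mul_swap_eq_swap_mul]
  have h1 : τ (τ u) = u := by rw [← Perm.mul_apply, hτ, Perm.one_apply]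
  rw [h1, swap_comm]

theorem sq_of_comm {G : Type} [Group G] {a b : G} (ha : a * a = 1) (hb : b * b = 1)
    (h : a * b = b * a) : (a * b) * (a * b) = 1 := by
  calc (a * b) * (a * b) = a * (b * a) * b := by group
    _ = a * (a * b) * b := by rw [h]
    _ = (a * a) * (b * b) := by group
    _ = 1 := by rw [ha, hb, mul_one]

theorem exists_moved {N : ℕ} (τ : Perm (Fin N)) (h : Perm.sign τ = -1) : ∃ u, τ u ≠ u := by
  by_contra hcon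
  push Not at hcon
  have h1 : τ = 1 := Equiv.ext hcon
  rw [h1, Perm.sign_one] at h
  exact absurd h (by decide)

theorem thm (hinv2 : Pool.Agent.Helper6.CX.S_INV2) (hevc : Pool.Agent.Helper6.CX.S_EVC) :
    Pool.Agent.Helper6.CX.S_INV8 := by
  intro N hN g hg
  obtain ⟨τ₁, τ₂, h₁, h₂, rfl⟩ := hinv2 N g
  rw [Perm.sign_mul] at hg
  rcases Int.units_eq_one_or (Perm.sign τ₁) with s₁ | s₁
  · have s₂ : Perm.sign τ₂ = 1 := by rwa [s₁, one_mul] at hg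
    obtain ⟨S, hS, e⟩ := of_four hevc τ₁ τ₂ 1 1 h₁ h₂ (mul_one 1) (mul_one 1) s₁ s₂
      Perm.sign_one Perm.sign_one
    refine ⟨S, hS, ?_⟩
    rw [← e, mul_one, mul_one]
  · have s₂ : Perm.sign τ₂ = -1 := by
      rcases Int.units_eq_one_or (Perm.sign τ₂) with s₂ | s₂
      · rw [s₁, s₂] at hg
        exact absurd hg (by decide)
      · exact s₂
    obtain ⟨u, hu⟩ := exists_moved τ₁ s₁
    obtain ⟨v, hv⟩ := exists_moved τ₂ s₂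
    obtain ⟨p, hp, q, hq, hpq⟩ : ∃ p ∈ (({u, τ₁ u, v, τ₂ v} : Finset (Fin N))ᶜ),
        ∃ q ∈ (({u, τ₁ u, v, τ₂ v} : Finset (Fin N))ᶜ), p ≠ q := by
      refine Finset.one_lt_card.1 ?_
      rw [Finset.card_compl, Fintype.card_fin]
      have h4 : ({u, τ₁ u, v, τ₂ v} : Finset (Fin N)).card ≤ 4 := Finset.card_le_four
      omega
    simp only [Finset.mem_compl, Finset.mem_insert, Finset.mem_singleton, not_or] at hp hq
    set r₁ := swap u (τ₁ u) with hr₁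
    set r₂ := swap v (τ₂ v) with hr₂
    set w := swap p q with hw
    have c₁ : τ₁ * r₁ = r₁ * τ₁ := swap_comm_of_inv τ₁ h₁ u
    have c₂ : τ₂ * r₂ = r₂ * τ₂ := swap_comm_of_inv τ₂ h₂ v
    have d₁ : r₁ * w = w * r₁ := by
      rw [hw, mul_swap_eq_swap_mul, hr₁, swap_apply_of_ne_of_ne hp.1 hp.2.1,
        swap_apply_of_ne_of_ne hq.1 hq.2.1]
    have d₂ : r₂ * w = w * r₂ := by
      rw [hw, mul_swap_eq_swap_mul, hr₂, swap_apply_of_ne_of_ne hp.2.2.1 hp.2.2.2,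
        swap_apply_of_ne_of_ne hq.2.2.1 hq.2.2.2]
    have i₁ : r₁ * r₁ = 1 := swap_mul_self _ _
    have i₂ : r₂ * r₂ = 1 := swap_mul_self _ _
    have iw : w * w = 1 := swap_mul_self _ _
    have t₁ : Perm.sign r₁ = -1 := Perm.sign_swap (Ne.symm hu)
    have t₂ : Perm.sign r₂ = -1 := Perm.sign_swap (Ne.symm hv)
    have tw : Perm.sign w = -1 := Perm.sign_swap hpq
    obtain ⟨S, hS, e⟩ := of_four hevc (τ₁ * r₁) (r₁ * w) (w * r₂) (r₂ * τ₂)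
      (sq_of_comm h₁ i₁ c₁) (sq_of_comm i₁ iw d₁) (sq_of_comm iw i₂ d₂.symm)
      (sq_of_comm i₂ h₂ c₂.symm)
      (by rw [Perm.sign_mul, s₁, t₁]; decide) (by rw [Perm.sign_mul, t₁, tw]; decide)
      (by rw [Perm.sign_mul, tw, t₂]; decide) (by rw [Perm.sign_mul, t₂, s₂]; decide)
    refine ⟨S, hS, ?_⟩
    rw [← e]
    calc τ₁ * τ₂ = τ₁ * (1 * 1 * 1) * τ₂ := by group
      _ = τ₁ * ((r₁ * r₁) * (w * w) * (r₂ * r₂)) * τ₂ := by rw [i₁, iw, i₂]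
      _ = τ₁ * r₁ * (r₁ * w) * (w * r₂) * (r₂ * τ₂) := by group

end Pool.Agent.Helper61.CX.INV8
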